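import Pool.Agent.W607.Qe

/-!
One very general germ for all the reachable weights at the same time, and the bounds that follow.
-/

namespace Pool.Agent.W607.Qc

open MvPolynomial Pool.Agent.H932R5 Pool.Agent.W607.Qm

/-- The reachable numbers are countably many. -/
theorem countable_up : {σ : ℝ | Up 1 σ}.Countable := by
  have h : {σ : ℝ | Up 1 σ} ⊆ Set.range fun l : List ℕ =>
      (List.foldr (fun (ρ : ℕ) (σ : ℝ) => (ρ : ℝ) ^ 2 / σ) (1 : ℝ) l : ℝ) := by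
    intro σ hσ
    induction hσ with
    | base => exact ⟨[], rfl⟩
    | step σ ρ h1 h2 ih =>
      obtain ⟨l, hl⟩ := ih
      refine ⟨ρ :: l, ?_⟩
      simp only [List.foldr_cons] at hl ⊢
      rw [hl]
  exact (Set.countable_range _).mono h

/-- The germ satisfies the exact inequality at all the reachable weights. -/
def Gd (c : ℕ → ℂ) : Prop :=
  ∀ σ : ℝ, Up 1 σ → ∀ d : ℕ, ∀ f : MvPolynomial (Fin 3) ℂ, f.IsHomogeneous d → f ≠ 0 →
    ∃ i j : ℕ, PowerSeries.coeff i ((expn c f).coeff j) ≠ 0 ∧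
      (i : ℝ) + σ * (j : ℝ) ≤ (d : ℝ) * Real.sqrt σ

theorem exists_gd : ∃ S : ℕ → MvPolynomial ℕ ℂ, (∀ k, S k ≠ 0) ∧
    ∀ c : ℕ → ℂ, (∀ k, eval c (S k) ≠ 0) → Gd c := by
  obtain ⟨F, hF⟩ := (countable_up).exists_eq_range ⟨1, Up.base⟩
  have hF1 : ∀ n, Up 1 (F n) := fun n => by
    have : F n ∈ {σ : ℝ | Up 1 σ} := by rw [hF]; exact ⟨n, rfl⟩
    exact this
  choose T hT0 hT using fun n => exact_up (hF1 n)
  refine ⟨fun k => T k.unpair.1 k.unpair.2, fun k => hT0 _ _, fun c hc σ hσ => ?_⟩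
  have h1 : σ ∈ Set.range F := by rw [← hF]; exact hσ
  obtain ⟨n, rfl⟩ := h1
  refine hT n c fun k => ?_
  have := hc (Nat.pair n k)
  simpa using this

/-- Every nonzero form of degree `d` has value at most `κ d`. -/
def Bdc (c : ℕ → ℂ) (t κ : ℝ) : Prop :=
  ∀ d : ℕ, ∀ f : MvPolynomial (Fin 3) ℂ, f.IsHomogeneous d → f ≠ 0 →
    ∃ v, IsVl t c f v ∧ v ≤ κ * d

theorem Bdc.mono {c : ℕ → ℂ} {t κ κ' : ℝ} (h : Bdc c t κ) (hκ : κ ≤ κ') : Bdc c t κ' := by
  refine fun d f hf hf0 => ?_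
  obtain ⟨v, hv, hv'⟩ := h d f hf hf0
  exact ⟨v, hv, hv'.trans (mul_le_mul_of_nonneg_right hκ (Nat.cast_nonneg _))⟩

theorem bdc_below {c : ℕ → ℂ} (g : Gd c) {σ t : ℝ} (h : Up 1 σ) (hσ : σ ≤ t) : Bdc c t (t / Real.sqrt σ) := by
  have hσ0 : 0 < σ := h.pos one_pos
  have ht0 : 0 < t := by linarith
  have hq : 0 < Real.sqrt σ := Real.sqrt_pos.2 hσ0
  have hqq : Real.sqrt σ * Real.sqrt σ = σ := Real.mul_self_sqrt hσ0.le
  refine fun d f hf hf0 => exists_vl ht0 ?_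
  obtain ⟨i, j, hij, hle⟩ := g σ h d f hf hf0
  refine ⟨i, j, hij, ?_⟩
  have h2 : (i : ℝ) + t * j ≤ t / σ * ((i : ℝ) + σ * j) := by
    have e : t / σ * ((i : ℝ) + σ * j) = t / σ * i + t * j := by
      field_simp
    rw [e]
    have h3 : 1 ≤ t / σ := by
      rw [le_div_iff₀ hσ0]
      linarith
    have : (0 : ℝ) ≤ i := Nat.cast_nonneg _
    nlinarith
  refine h2.trans ((mul_le_mul_of_nonneg_left hle (by positivity)).trans (le_of_eq ?_))
  rw [div_mul_eq_mul_div, div_mul_eq_mul_div, div_eq_div_iff hσ0.ne' hq.ne']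
  calc t * (↑d * √σ) * √σ = t * ↑d * (√σ * √σ) := by ring
    _ = t * ↑d * σ := by rw [hqq]

theorem bdc_above {c : ℕ → ℂ} (g : Gd c) {σ t : ℝ} (h : Up 1 σ) (ht0 : 0 < t) (hσ : t ≤ σ) : Bdc c t (Real.sqrt σ) := by
  refine fun d f hf hf0 => exists_vl ht0 ?_
  obtain ⟨i, j, hij, hle⟩ := g σ h d f hf hf0
  refine ⟨i, j, hij, ?_⟩
  have : t * (j : ℝ) ≤ σ * j := mul_le_mul_of_nonneg_right hσ (Nat.cast_nonneg _)
  linarith

theorem bdc_between {c : ℕ → ℂ} (g : Gd c) {a b r ε : ℝ} (ha : Rr a) (hb : Rr b) (har : a ≤ r) (hrb : r ≤ b)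
    (hε : 0 ≤ ε) (hab : b ≤ (1 + ε) ^ 2 * a) : Bdc c (r ^ 2) ((1 + ε) * r) := by
  have ha0 := ha.1
  have hr0 : 0 < r := by linarith
  rcases le_or_gt r ((1 + ε) * a) with h | h
  · refine (bdc_below g ha.2 (by nlinarith)).mono ?_
    rw [Real.sqrt_sq ha0.le, div_le_iff₀ ha0]
    nlinarith
  · refine (bdc_above g hb.2 (by positivity) (by nlinarith)).mono ?_
    rw [Real.sqrt_sq hb.1.le]
    nlinarith

theorem bdc_uniform {c : ℕ → ℂ} (g : Gd c) {t : ℝ} (ht : 1 ≤ t) :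
    Bdc c t ((1 + 1 / (2 * (⌊Real.sqrt t⌋₊ : ℝ) ^ 2)) * Real.sqrt t) := by
  obtain ⟨r, hr⟩ : ∃ r, r = Real.sqrt t := ⟨_, rfl⟩
  have hrt : r ^ 2 = t := by rw [hr, Real.sq_sqrt (by linarith)]
  rw [← hr]
  have hr1 : 1 ≤ r := by
    rw [hr]
    exact Real.one_le_sqrt.2 ht
  obtain ⟨q, hq⟩ : ∃ q : ℕ, q = ⌊r⌋₊ := ⟨_, rfl⟩
  have hq1 : 1 ≤ q := by
    rw [hq]
    exact Nat.le_floor (by simpa using hr1)
  have hqr : (q : ℝ) ≤ r := by
    rw [hq]
    exact Nat.floor_le (by linarith)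
  have hq0 : (0 : ℝ) < q := by exact_mod_cast hq1
  obtain ⟨p, hp⟩ : ∃ p : ℕ, p = ⌊(q : ℝ) * r⌋₊ := ⟨_, rfl⟩
  have hpq : q ^ 2 ≤ p := by
    rw [hp]
    refine Nat.le_floor ?_
    push_cast
    nlinarith
  have hp1 : (p : ℝ) ≤ q * r := by
    rw [hp]
    exact Nat.floor_le (by positivity)
  have hp2 : (q : ℝ) * r < p + 1 := by
    rw [hp]
    exact Nat.lt_floor_add_one _
  rw [← hq, ← hrt]
  have hpqR : (q : ℝ) ^ 2 ≤ p := by exact_mod_cast hpq
  refine bdc_between g (a := (p : ℝ) / q) (b := ((p + 1 : ℕ) : ℝ) / q) (Rr.frac hq1 hpq)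
    (Rr.frac hq1 (by omega)) ?_ ?_ (by positivity) ?_
  · rw [div_le_iff₀ hq0]
    linarith
  · rw [le_div_iff₀ hq0]
    push_cast
    linarith
  · rw [← mul_div_assoc, div_le_div_iff_of_pos_right hq0]
    push_cast
    have h1 : (1 + 1 / (2 * (q : ℝ) ^ 2)) ^ 2 = 1 + 1 / (q : ℝ) ^ 2 + (1 / (2 * (q : ℝ) ^ 2)) ^ 2 := by
      field_simp
      ring
    have h2 : 1 ≤ 1 / (q : ℝ) ^ 2 * p := by
      rw [div_mul_eq_mul_div, one_mul, le_div_iff₀ (by positivity), one_mul]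
      exact hpqR
    rw [h1]
    have h3 : 0 ≤ (1 / (2 * (q : ℝ) ^ 2)) ^ 2 * p := by positivity
    nlinarith

theorem bdc_nine {c : ℕ → ℂ} (g : Gd c) {t : ℝ} (ht : 9 ≤ t) : Bdc c t (1.025 * Real.sqrt t) := by
  obtain ⟨r, hr⟩ : ∃ r, r = Real.sqrt t := ⟨_, rfl⟩
  have hrt : r ^ 2 = t := by rw [hr, Real.sq_sqrt (by linarith)]
  have hr3 : 3 ≤ r := by
    rw [hr]
    exact Real.le_sqrt_of_sq_le (by linarith)
  rcases le_or_gt 5 r with hr5 | hr5
  · refine (bdc_uniform g (by linarith)).mono ?_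
    have h1 : (5 : ℝ) ≤ ⌊Real.sqrt t⌋₊ := by
      rw [← hr]
      exact_mod_cast Nat.le_floor (by simpa using hr5)
    have h2 : 1 / (2 * (⌊Real.sqrt t⌋₊ : ℝ) ^ 2) ≤ 0.025 := by
      rw [div_le_iff₀ (by positivity)]
      nlinarith
    refine mul_le_mul_of_nonneg_right (by linarith) (Real.sqrt_nonneg _)
  rw [← hr, ← hrt]
  have f1 := fun (p : ℕ) (hp : 1 ^ 2 ≤ p) => Rr.frac (p := p) (q := 1) le_rfl hp
  have f2 := fun (p : ℕ) (hp : 2 ^ 2 ≤ p) => Rr.frac (p := p) (q := 2) (by norm_num) hp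
  have f3 := fun (p : ℕ) (hp : 3 ^ 2 ≤ p) => Rr.frac (p := p) (q := 3) (by norm_num) hp
  have a0 : Rr 3 := by have := f1 3 (by norm_num); norm_num at this; exact this
  have b0 : Rr (14 / 5) := (f2 5 (by norm_num)).step' 7 (by norm_num) (by norm_num)
  have b1 : Rr (20 / 7) := b0.step' 8 (by norm_num) (by norm_num)
  have a1 : Rr (63 / 20) := b1.step' 9 (by norm_num) (by norm_num)
  have a2 : Rr (45 / 14) := b0.step' 9 (by norm_num) (by norm_num)
  have a3 : Rr (10 / 3) := by have := f3 10 (by norm_num); norm_num at this; exact this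
  have a4 : Rr (7 / 2) := by have := f2 7 (by norm_num); norm_num at this; exact this
  have a5 : Rr (11 / 3) := by have := f3 11 (by norm_num); norm_num at this; exact this
  have a6 : Rr (77 / 20) := b1.step' 11 (by norm_num) (by norm_num)
  have a7 : Rr 4 := by have := f1 4 (by norm_num); norm_num at this; exact this
  have a8 : Rr (21 / 5) := a3.step' 14 (by norm_num) (by norm_num)
  have a9 : Rr (22 / 5) := (f2 5 (by norm_num)).step' 11 (by norm_num) (by norm_num)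
  have a10 : Rr (9 / 2) := by have := f2 9 (by norm_num); norm_num at this; exact this
  have a11 : Rr (14 / 3) := by have := f3 14 (by norm_num); norm_num at this; exact this
  have a12 : Rr (24 / 5) := (f2 5 (by norm_num)).step' 12 (by norm_num) (by norm_num)
  have a13 : Rr 5 := by have := f1 5 (by norm_num); norm_num at this; exact this
  have e : (1.025 : ℝ) = 1 + 0.025 := by norm_num
  rw [e]
  rcases le_or_gt r (63 / 20) with h | h1
  · exact bdc_between g a0 a1 hr3 h (by norm_num) (by norm_num)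
  rcases le_or_gt r (45 / 14) with h | h2
  · exact bdc_between g a1 a2 h1.le h (by norm_num) (by norm_num)
  rcases le_or_gt r (10 / 3) with h | h3
  · exact bdc_between g a2 a3 h2.le h (by norm_num) (by norm_num)
  rcases le_or_gt r (7 / 2) with h | h4
  · exact bdc_between g a3 a4 h3.le h (by norm_num) (by norm_num)
  rcases le_or_gt r (11 / 3) with h | h5
  · exact bdc_between g a4 a5 h4.le h (by norm_num) (by norm_num)
  rcases le_or_gt r (77 / 20) with h | h6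
  · exact bdc_between g a5 a6 h5.le h (by norm_num) (by norm_num)
  rcases le_or_gt r 4 with h | h7
  · exact bdc_between g a6 a7 h6.le h (by norm_num) (by norm_num)
  rcases le_or_gt r (21 / 5) with h | h8
  · exact bdc_between g a7 a8 h7.le h (by norm_num) (by norm_num)
  rcases le_or_gt r (22 / 5) with h | h9
  · exact bdc_between g a8 a9 h8.le h (by norm_num) (by norm_num)
  rcases le_or_gt r (9 / 2) with h | h10
  · exact bdc_between g a9 a10 h9.le h (by norm_num) (by norm_num)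
  rcases le_or_gt r (14 / 3) with h | h11
  · exact bdc_between g a10 a11 h10.le h (by norm_num) (by norm_num)
  rcases le_or_gt r (24 / 5) with h | h12
  · exact bdc_between g a11 a12 h11.le h (by norm_num) (by norm_num)
  · exact bdc_between g a12 a13 h12.le hr5.le (by norm_num) (by norm_num)

/-- The bound from an approximation from below. -/
theorem bdc_close {c : ℕ → ℂ} (g : Gd c) {t σ δ : ℝ} (h : Up 1 σ) (hσ1 : 1 ≤ σ) (hσ : σ ≤ t) (hδ : t - σ ≤ δ) :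
    Bdc c t (Real.sqrt t + δ) := by
  refine (bdc_below g h hσ).mono ?_
  have hq1 : 1 ≤ Real.sqrt σ := Real.one_le_sqrt.2 hσ1
  have hqt : Real.sqrt σ ≤ Real.sqrt t := Real.sqrt_le_sqrt hσ
  have h1 : Real.sqrt σ * Real.sqrt σ = σ := Real.mul_self_sqrt (by linarith)
  have h2 : Real.sqrt t * Real.sqrt t = t := Real.mul_self_sqrt (by linarith)
  obtain ⟨a, ha⟩ : ∃ a, a = Real.sqrt σ := ⟨_, rfl⟩
  obtain ⟨b, hb⟩ : ∃ b, b = Real.sqrt t := ⟨_, rfl⟩
  rw [← ha] at hq1 hqt h1 ⊢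
  rw [← hb] at hqt h2 ⊢
  rw [div_le_iff₀ (by linarith)]
  -- t ≤ (b + δ) a
  have h3 : b * (b - a) ≤ (b + a) * (b - a) := by nlinarith
  have h4 : (b + a) * (b - a) = t - σ := by nlinarith
  have h5 : 0 ≤ t - σ := by linarith
  nlinarith

theorem bdc_pow {c : ℕ → ℂ} (g : Gd c) (k : ℕ) {t : ℝ} (ht : (5 : ℝ) ^ (14 * k + 28) ≤ t) :
    Bdc c t (Real.sqrt t + 1 / t ^ k) := by
  obtain ⟨σ, hup, hσ, hclose⟩ := Pool.Agent.H852.QP.exists_upQ k 1 t le_rfl (by linarith)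
  refine bdc_close g hup ?_ hσ hclose
  have h1 : (5 : ℝ) ≤ 5 ^ (14 * k + 28) := by
    calc (5 : ℝ) = 5 ^ 1 := by norm_num
      _ ≤ 5 ^ (14 * k + 28) := pow_le_pow_right₀ (by norm_num) (by omega)
  have h2 : 1 / t ^ k ≤ 1 := by
    rw [div_le_one (by have : (0 : ℝ) < t := by linarith
                       positivity)]
    exact one_le_pow₀ (by linarith)
  linarith

theorem bdc_exp {c : ℕ → ℂ} (g : Gd c) {t : ℝ} (ht : (2 : ℝ) ^ 1000 ≤ t) :
    Bdc c t (Real.sqrt t + Real.exp (-(t ^ (1 / 10 : ℝ)))) := by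
  have h2 : (2 : ℝ) ≤ 2 ^ 1000 := by
    calc (2 : ℝ) = 2 ^ 1 := by norm_num
      _ ≤ 2 ^ 1000 := pow_le_pow_right₀ (by norm_num) (by norm_num)
  have ht2 : 2 ≤ t := h2.trans ht
  obtain ⟨σ, hup, hσ, hclose⟩ := Pool.Agent.W610.exists_up_exp (s0 := 1) (u := t) le_rfl ht
    (by rw [one_pow]; exact one_le_pow₀ (le_trans (by norm_num) ht2))
  refine bdc_close g hup ?_ hσ hclose
  clear ht h2
  have h1 : Real.exp (-(t ^ (1 / 10 : ℝ))) ≤ 1 := by
    rw [Real.exp_le_one_iff, neg_nonpos]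
    positivity
  linarith


end Pool.Agent.W607.Qc
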