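import Pool.Agent.W607.Qf

/-!
Explicit bounds for very general quasimonomial valuations of the projective plane.
-/

namespace Pool.Agent.W607.Qm

open MvPolynomial Pool.Agent.H932R5

theorem bd_nine {t : ℝ} (ht : 9 ≤ t) : Bd t (1.025 * Real.sqrt t) := by
  obtain ⟨r, hr⟩ : ∃ r, r = Real.sqrt t := ⟨_, rfl⟩
  have hrt : r ^ 2 = t := by rw [hr, Real.sq_sqrt (by linarith)]
  have hr3 : 3 ≤ r := by
    rw [hr]
    exact Real.le_sqrt_of_sq_le (by linarith)
  rcases le_or_gt 5 r with hr5 | hr5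
  · refine (bd_uniform (by linarith)).mono ?_
    have h1 : (5 : ℝ) ≤ ⌊Real.sqrt t⌋₊ := by
      rw [← hr]
      exact_mod_cast Nat.le_floor (by simpa using hr5)
    have h2 : 1 / (2 * (⌊Real.sqrt t⌋₊ : ℝ) ^ 2) ≤ 0.025 := by
      rw [div_le_iff₀ (by positivity)]
      nlinarith
    refine mul_le_mul_of_nonneg_right (by linarith) (Real.sqrt_nonneg _)
  rw [← hr, ← hrt]
  have f1 := fun (p : ℕ) (hp : 1 ^ 2 ≤ p) => Rr.frac (p := p) (q := 1) le_rfl hp
  have f2 := fun (p : ℕ) (hp : 2 ^ 2 ≤ p) => Rr.frac (p := p) (q := 2) (by norm_num) hp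
  have f3 := fun (p : ℕ) (hp : 3 ^ 2 ≤ p) => Rr.frac (p := p) (q := 3) (by norm_num) hp
  have a0 : Rr 3 := by have := f1 3 (by norm_num); norm_num at this; exact this
  have b0 : Rr (14 / 5) := (f2 5 (by norm_num)).step' 7 (by norm_num) (by norm_num)
  have b1 : Rr (20 / 7) := b0.step' 8 (by norm_num) (by norm_num)
  have a1 : Rr (63 / 20) := b1.step' 9 (by norm_num) (by norm_num)
  have a2 : Rr (45 / 14) := b0.step' 9 (by norm_num) (by norm_num)
  have a3 : Rr (10 / 3) := by have := f3 10 (by norm_num); norm_num at this; exact this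
  have a4 : Rr (7 / 2) := by have := f2 7 (by norm_num); norm_num at this; exact this
  have a5 : Rr (11 / 3) := by have := f3 11 (by norm_num); norm_num at this; exact this
  have a6 : Rr (77 / 20) := b1.step' 11 (by norm_num) (by norm_num)
  have a7 : Rr 4 := by have := f1 4 (by norm_num); norm_num at this; exact this
  have a8 : Rr (21 / 5) := a3.step' 14 (by norm_num) (by norm_num)
  have a9 : Rr (22 / 5) := (f2 5 (by norm_num)).step' 11 (by norm_num) (by norm_num)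
  have a10 : Rr (9 / 2) := by have := f2 9 (by norm_num); norm_num at this; exact this
  have a11 : Rr (14 / 3) := by have := f3 14 (by norm_num); norm_num at this; exact this
  have a12 : Rr (24 / 5) := (f2 5 (by norm_num)).step' 12 (by norm_num) (by norm_num)
  have a13 : Rr 5 := by have := f1 5 (by norm_num); norm_num at this; exact this
  have e : (1.025 : ℝ) = 1 + 0.025 := by norm_num
  rw [e]
  rcases le_or_gt r (63 / 20) with h | h1
  · exact bd_between a0 a1 hr3 h (by norm_num) (by norm_num)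
  rcases le_or_gt r (45 / 14) with h | h2
  · exact bd_between a1 a2 h1.le h (by norm_num) (by norm_num)
  rcases le_or_gt r (10 / 3) with h | h3
  · exact bd_between a2 a3 h2.le h (by norm_num) (by norm_num)
  rcases le_or_gt r (7 / 2) with h | h4
  · exact bd_between a3 a4 h3.le h (by norm_num) (by norm_num)
  rcases le_or_gt r (11 / 3) with h | h5
  · exact bd_between a4 a5 h4.le h (by norm_num) (by norm_num)
  rcases le_or_gt r (77 / 20) with h | h6
  · exact bd_between a5 a6 h5.le h (by norm_num) (by norm_num)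
  rcases le_or_gt r 4 with h | h7
  · exact bd_between a6 a7 h6.le h (by norm_num) (by norm_num)
  rcases le_or_gt r (21 / 5) with h | h8
  · exact bd_between a7 a8 h7.le h (by norm_num) (by norm_num)
  rcases le_or_gt r (22 / 5) with h | h9
  · exact bd_between a8 a9 h8.le h (by norm_num) (by norm_num)
  rcases le_or_gt r (9 / 2) with h | h10
  · exact bd_between a9 a10 h9.le h (by norm_num) (by norm_num)
  rcases le_or_gt r (14 / 3) with h | h11
  · exact bd_between a10 a11 h10.le h (by norm_num) (by norm_num)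
  rcases le_or_gt r (24 / 5) with h | h12
  · exact bd_between a11 a12 h11.le h (by norm_num) (by norm_num)
  · exact bd_between a12 a13 h12.le hr5.le (by norm_num) (by norm_num)

/-- The bound from an approximation from below. -/
theorem bd_close {t σ δ : ℝ} (h : Up 1 σ) (hσ1 : 1 ≤ σ) (hσ : σ ≤ t) (hδ : t - σ ≤ δ) :
    Bd t (Real.sqrt t + δ) := by
  refine (bd_below h hσ).mono ?_
  have hq1 : 1 ≤ Real.sqrt σ := Real.one_le_sqrt.2 hσ1
  have hqt : Real.sqrt σ ≤ Real.sqrt t := Real.sqrt_le_sqrt hσ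
  have h1 : Real.sqrt σ * Real.sqrt σ = σ := Real.mul_self_sqrt (by linarith)
  have h2 : Real.sqrt t * Real.sqrt t = t := Real.mul_self_sqrt (by linarith)
  obtain ⟨a, ha⟩ : ∃ a, a = Real.sqrt σ := ⟨_, rfl⟩
  obtain ⟨b, hb⟩ : ∃ b, b = Real.sqrt t := ⟨_, rfl⟩
  rw [← ha] at hq1 hqt h1 ⊢
  rw [← hb] at hqt h2 ⊢
  rw [div_le_iff₀ (by linarith)]
  -- t ≤ (b + δ) a
  have h3 : b * (b - a) ≤ (b + a) * (b - a) := by nlinarith
  have h4 : (b + a) * (b - a) = t - σ := by nlinarith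
  have h5 : 0 ≤ t - σ := by linarith
  nlinarith

theorem bd_pow (k : ℕ) {t : ℝ} (ht : (5 : ℝ) ^ (14 * k + 28) ≤ t) :
    Bd t (Real.sqrt t + 1 / t ^ k) := by
  obtain ⟨σ, hup, hσ, hclose⟩ := Pool.Agent.H852.QP.exists_upQ k 1 t le_rfl (by linarith)
  refine bd_close hup ?_ hσ hclose
  have h1 : (5 : ℝ) ≤ 5 ^ (14 * k + 28) := by
    calc (5 : ℝ) = 5 ^ 1 := by norm_num
      _ ≤ 5 ^ (14 * k + 28) := pow_le_pow_right₀ (by norm_num) (by omega)
  have h2 : 1 / t ^ k ≤ 1 := by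
    rw [div_le_one (by have : (0 : ℝ) < t := by linarith
                       positivity)]
    exact one_le_pow₀ (by linarith)
  linarith

theorem bd_exp {t : ℝ} (ht : (2 : ℝ) ^ 1000 ≤ t) :
    Bd t (Real.sqrt t + Real.exp (-(t ^ (1 / 10 : ℝ)))) := by
  have h2 : (2 : ℝ) ≤ 2 ^ 1000 := by
    calc (2 : ℝ) = 2 ^ 1 := by norm_num
      _ ≤ 2 ^ 1000 := pow_le_pow_right₀ (by norm_num) (by norm_num)
  have ht2 : 2 ≤ t := h2.trans ht
  obtain ⟨σ, hup, hσ, hclose⟩ := Pool.Agent.W610.exists_up_exp (s0 := 1) (u := t) le_rfl ht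
    (by rw [one_pow]; exact one_le_pow₀ (le_trans (by norm_num) ht2))
  refine bd_close hup ?_ hσ hclose
  clear ht h2
  have h1 : Real.exp (-(t ^ (1 / 10 : ℝ))) ≤ 1 := by
    rw [Real.exp_le_one_iff, neg_nonpos]
    positivity
  linarith

/-- From an approximate to an exact inequality, at a rational weight. -/
theorem exact_rat {a b : ℕ} (hb : 0 < b) {δ : ℝ} (hδ0 : 0 ≤ δ)
    (hδ : δ ≤ Real.sqrt ((a : ℝ) / b)) {c : ℕ → ℂ} {f : MvPolynomial (Fin 3) ℂ} {d : ℕ} {v : ℝ}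
    (hv : IsVl ((a : ℝ) / b) c f v) (hle : v ≤ (Real.sqrt ((a : ℝ) / b) + δ) * d)
    (hs : 3 * Real.sqrt ((a : ℝ) / b) * (b : ℝ) ^ 2 * (d : ℝ) ^ 2 * δ < 1) :
    v ≤ Real.sqrt ((a : ℝ) / b) * d := by
  obtain ⟨⟨i, j, -, hvij⟩, -⟩ := hv
  have hbR : (0 : ℝ) < b := by exact_mod_cast hb
  obtain ⟨s, hs'⟩ : ∃ s, s = Real.sqrt ((a : ℝ) / b) := ⟨_, rfl⟩
  have hss : s ^ 2 = a / b := by rw [hs', Real.sq_sqrt (by positivity)]
  have hs0 : 0 ≤ s := by rw [hs']; exact Real.sqrt_nonneg _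
  rw [← hs'] at hδ hle hs ⊢
  have hw : b * v = ((b * i + a * j : ℕ) : ℝ) := by
    rw [hvij]
    push_cast
    field_simp
  have hv0 : 0 ≤ v := by rw [hvij]; positivity
  have h1 : (b * v) ^ 2 ≤ (b * ((s + δ) * d)) ^ 2 := by
    refine pow_le_pow_left₀ (by positivity) ?_ 2
    exact mul_le_mul_of_nonneg_left hle hbR.le
  have h2 : (b * ((s + δ) * (d : ℝ))) ^ 2 < ((a * b * d ^ 2 : ℕ) : ℝ) + 1 := by
    have e : (b * ((s + δ) * (d : ℝ))) ^ 2 =
        (b : ℝ) ^ 2 * s ^ 2 * (d : ℝ) ^ 2 + (2 * s + δ) * δ * ((b : ℝ) ^ 2 * (d : ℝ) ^ 2) := by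
      ring
    have e2 : (b : ℝ) ^ 2 * s ^ 2 = a * b := by
      rw [hss]
      field_simp
    rw [e, e2]
    push_cast
    have h3 : (2 * s + δ) * δ * ((b : ℝ) ^ 2 * (d : ℝ) ^ 2) ≤
        3 * s * (b : ℝ) ^ 2 * (d : ℝ) ^ 2 * δ := by
      have h4 : (2 * s + δ) * (δ * ((b : ℝ) ^ 2 * (d : ℝ) ^ 2)) ≤
          (3 * s) * (δ * ((b : ℝ) ^ 2 * (d : ℝ) ^ 2)) :=
        mul_le_mul_of_nonneg_right (by linarith) (by positivity)
      linarith
    linarith
  have h5 : (b * i + a * j) ^ 2 ≤ a * b * d ^ 2 := by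
    rw [hw] at h1
    have h6 : (((b * i + a * j) ^ 2 : ℕ) : ℝ) < ((a * b * d ^ 2 + 1 : ℕ) : ℝ) := by
      push_cast at h1 h2 ⊢
      linarith
    have h7 : (b * i + a * j) ^ 2 < a * b * d ^ 2 + 1 := by exact_mod_cast h6
    omega
  have h8 : (b * v) ^ 2 ≤ (b * (s * d)) ^ 2 := by
    rw [hw]
    have h9 : (((b * i + a * j) ^ 2 : ℕ) : ℝ) ≤ ((a * b * d ^ 2 : ℕ) : ℝ) := by exact_mod_cast h5
    have e2 : (b * (s * (d : ℝ))) ^ 2 = (a : ℝ) * b * (d : ℝ) ^ 2 := by
      have : (b * (s * (d : ℝ))) ^ 2 = (b : ℝ) ^ 2 * s ^ 2 * (d : ℝ) ^ 2 := by ring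
      rw [this, hss]
      field_simp
    rw [e2]
    push_cast at h9 ⊢
    exact h9
  have h10 : b * v ≤ b * (s * d) := by
    refine le_of_sq_le_sq ?_ (by positivity)
    exact h8
  exact le_of_mul_le_mul_left h10 hbR

end Pool.Agent.W607.Qm
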