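import Pool.Agent.W607.Qg
import Pool.Agent.W610.UpExp
import Pool.Agent.H852.QP.Up

/-!
Bounds for very general quasimonomial valuations of the projective plane.
-/

namespace Pool.Agent.W607.Qm

open MvPolynomial Pool.Agent.H932R5

/-- The expansion of the form `f` in the chart `z = 1`. -/
noncomputable def expn (c : ℕ → ℂ) (f : MvPolynomial (Fin 3) ℂ) : Polynomial (PowerSeries ℂ) :=
  aeval ![Polynomial.C PowerSeries.X,
    Polynomial.C (PowerSeries.X * PowerSeries.mk c) + Polynomial.X, 1] f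

/-- The exponent in two variables. -/
noncomputable def rr (α : Fin 3 →₀ ℕ) : Fin (1 + 1) →₀ ℕ :=
  Finsupp.equivFunOnFinite.symm ![α 0, α 1]

theorem rr0 (α : Fin 3 →₀ ℕ) : rr α 0 = α 0 := rfl

theorem rr1 (α : Fin 3 →₀ ℕ) : rr α 1 = α 1 := rfl

/-- The dehomogenization. -/
noncomputable def dh (f : MvPolynomial (Fin 3) ℂ) : MvPolynomial (Fin (1 + 1)) ℂ :=
  ∑ α ∈ f.support, monomial (rr α) (coeff α f)

theorem ex_dh (c : ℕ → ℂ) (f : MvPolynomial (Fin 3) ℂ) : ex c (dh f) = expn c f := by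
  rw [dh, map_sum, expn]
  conv_rhs => rw [f.as_sum, map_sum]
  refine Finset.sum_congr rfl fun α _ => ?_
  rw [ex, aeval_monomial, aeval_monomial, Finsupp.prod_fintype _ _ (fun i => pow_zero _),
    Finsupp.prod_fintype _ _ (fun i => pow_zero _), Fin.prod_univ_two, Fin.prod_univ_three,
    rr0, rr1]
  simp

theorem deg3 {d : ℕ} {f : MvPolynomial (Fin 3) ℂ} (hf : f.IsHomogeneous d)
    {α : Fin 3 →₀ ℕ} (hα : coeff α f ≠ 0) : α 0 + α 1 + α 2 = d := by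
  have h : Finsupp.weight (fun _ => 1) α = d := hf hα
  rw [← Finsupp.degree_eq_weight_one, Finsupp.degree_eq_sum, Fin.sum_univ_three] at h
  exact h

theorem coeff_dh {d : ℕ} {f : MvPolynomial (Fin 3) ℂ} (hf : f.IsHomogeneous d)
    {α : Fin 3 →₀ ℕ} (hα : coeff α f ≠ 0) : coeff (rr α) (dh f) = coeff α f := by
  classical
  rw [dh, coeff_sum, Finset.sum_eq_single α]
  · rw [coeff_monomial, if_pos rfl]
  · intro β hβ hne
    rw [coeff_monomial, if_neg]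
    intro h
    refine hne ?_
    have h0 : β 0 = α 0 := by rw [← rr0, ← rr0, h]
    have h1 : β 1 = α 1 := by rw [← rr1, ← rr1, h]
    have hdβ := deg3 hf (mem_support_iff.1 hβ)
    have hdα := deg3 hf hα
    ext i
    fin_cases i
    · exact h0
    · exact h1
    · show β 2 = α 2
      omega
  · intro h
    rw [coeff_monomial, if_pos rfl]
    exact notMem_support_iff.1 h

theorem deg_dh {d : ℕ} {f : MvPolynomial (Fin 3) ℂ} (hf : f.IsHomogeneous d)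
    {β : Fin (1 + 1) →₀ ℕ} (hβ : coeff β (dh f) ≠ 0) : β 0 + β 1 ≤ d := by
  classical
  rw [dh, coeff_sum] at hβ
  obtain ⟨α, hα, h⟩ := Finset.exists_ne_zero_of_sum_ne_zero hβ
  rw [coeff_monomial] at h
  by_cases hr : rr α = β
  · subst hr
    have hdα := deg3 hf (mem_support_iff.1 hα)
    rw [rr0, rr1]
    omega
  · rw [if_neg hr] at h
    exact absurd rfl h

/-- For very general `c`, every nonzero form of degree `d` has, for every reachable ratio `σ`, a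
term of value at most `d √σ`. -/
theorem exact_up {σ : ℝ} (h : Up 1 σ) :
    ∃ S : ℕ → MvPolynomial ℕ ℂ, (∀ k, S k ≠ 0) ∧
      ∀ c : ℕ → ℂ, (∀ k, eval c (S k) ≠ 0) →
        ∀ d : ℕ, ∀ f : MvPolynomial (Fin 3) ℂ, f.IsHomogeneous d → f ≠ 0 →
          ∃ i j : ℕ, PowerSeries.coeff i ((expn c f).coeff j) ≠ 0 ∧
            (i : ℝ) + σ * (j : ℝ) ≤ (d : ℝ) * Real.sqrt σ := by
  choose S hS0 hS using fun D => exists_poly h D
  refine ⟨S, hS0, fun c hc d f hf hf0 => ?_⟩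
  by_contra hno
  push Not at hno
  refine hf0 ?_
  have h1 : dh f = 0 := by
    refine hS d c (hc d) (dh f) ?_ fun α hα => deg_dh hf hα
    intro i j hij
    rw [ex_dh]
    by_contra hne
    exact absurd (hno i j hne) (not_lt.2 hij)
  ext α
  rw [coeff_zero]
  by_contra hne
  have h2 := coeff_dh hf hne
  rw [h1, coeff_zero] at h2
  exact hne h2.symm

/-- `v` is the value of the quasimonomial valuation with weights `1`, `t`. -/
def IsVl (t : ℝ) (c : ℕ → ℂ) (f : MvPolynomial (Fin 3) ℂ) (v : ℝ) : Prop :=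
  IsLeast {w : ℝ | ∃ i j : ℕ, PowerSeries.coeff i ((expn c f).coeff j) ≠ 0 ∧
    w = (i : ℝ) + t * (j : ℝ)} v

theorem exists_vl {t : ℝ} (ht : 0 < t) {c : ℕ → ℂ} {f : MvPolynomial (Fin 3) ℂ} {κ : ℝ}
    (h : ∃ i j : ℕ, PowerSeries.coeff i ((expn c f).coeff j) ≠ 0 ∧ (i : ℝ) + t * (j : ℝ) ≤ κ) :
    ∃ v, IsVl t c f v ∧ v ≤ κ := by
  obtain ⟨i0, j0, h0, h0'⟩ := h
  let P : Set (ℕ × ℕ) := {p | PowerSeries.coeff p.1 ((expn c f).coeff p.2) ≠ 0 ∧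
    (p.1 : ℝ) + t * (p.2 : ℝ) ≤ (i0 : ℝ) + t * (j0 : ℝ)}
  have hfin : P.Finite := by
    refine ((Set.finite_Iic ⌊(i0 : ℝ) + t * (j0 : ℝ)⌋₊).prod
      (Set.finite_Iic ⌊((i0 : ℝ) + t * (j0 : ℝ)) / t⌋₊)).subset ?_
    rintro ⟨i, j⟩ ⟨_, h⟩
    have h : (i : ℝ) + t * j ≤ (i0 : ℝ) + t * (j0 : ℝ) := h
    refine ⟨Nat.le_floor ?_, Nat.le_floor ?_⟩
    · show (i : ℝ) ≤ (i0 : ℝ) + t * (j0 : ℝ)
      have : 0 ≤ t * (j : ℝ) := by positivity
      linarith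
    · show (j : ℝ) ≤ ((i0 : ℝ) + t * (j0 : ℝ)) / t
      rw [le_div_iff₀ ht]
      have : 0 ≤ (i : ℝ) := by positivity
      linarith
  obtain ⟨p, hp, hmin⟩ := Set.exists_min_image P (fun p => (p.1 : ℝ) + t * (p.2 : ℝ)) hfin
    ⟨(i0, j0), h0, le_rfl⟩
  refine ⟨(p.1 : ℝ) + t * (p.2 : ℝ), ⟨⟨p.1, p.2, hp.1, rfl⟩, ?_⟩, hp.2.trans h0'⟩
  rintro w ⟨i, j, hij, rfl⟩
  by_cases hle : (i : ℝ) + t * j ≤ (i0 : ℝ) + t * (j0 : ℝ)
  · exact hmin (i, j) ⟨hij, hle⟩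
  · push Not at hle
    exact hp.2.trans hle.le

/-- For very general `c`, every nonzero form of degree `d` has value at most `κ d`. -/
def Bd (t κ : ℝ) : Prop :=
  ∃ S : ℕ → MvPolynomial ℕ ℂ, (∀ k, S k ≠ 0) ∧
    ∀ c : ℕ → ℂ, (∀ k, eval c (S k) ≠ 0) →
      ∀ d : ℕ, ∀ f : MvPolynomial (Fin 3) ℂ, f.IsHomogeneous d → f ≠ 0 →
        ∃ v, IsVl t c f v ∧ v ≤ κ * d

theorem Bd.mono {t κ κ' : ℝ} (h : Bd t κ) (hκ : κ ≤ κ') : Bd t κ' := by
  obtain ⟨S, h0, h1⟩ := h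
  refine ⟨S, h0, fun c hc d f hf hf0 => ?_⟩
  obtain ⟨v, hv, hv'⟩ := h1 c hc d f hf hf0
  exact ⟨v, hv, hv'.trans (mul_le_mul_of_nonneg_right hκ (Nat.cast_nonneg _))⟩

theorem bd_exact {σ : ℝ} (h : Up 1 σ) : Bd σ (Real.sqrt σ) := by
  obtain ⟨S, h0, h1⟩ := exact_up h
  refine ⟨S, h0, fun c hc d f hf hf0 => ?_⟩
  have h2 := exists_vl (h.pos one_pos) (h1 c hc d f hf hf0)
  rwa [mul_comm] at h2

theorem bd_below {σ t : ℝ} (h : Up 1 σ) (hσ : σ ≤ t) : Bd t (t / Real.sqrt σ) := by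
  have hσ0 : 0 < σ := h.pos one_pos
  have ht0 : 0 < t := by linarith
  have hq : 0 < Real.sqrt σ := Real.sqrt_pos.2 hσ0
  have hqq : Real.sqrt σ * Real.sqrt σ = σ := Real.mul_self_sqrt hσ0.le
  obtain ⟨S, h0, h1⟩ := exact_up h
  refine ⟨S, h0, fun c hc d f hf hf0 => exists_vl ht0 ?_⟩
  obtain ⟨i, j, hij, hle⟩ := h1 c hc d f hf hf0
  refine ⟨i, j, hij, ?_⟩
  have h2 : (i : ℝ) + t * j ≤ t / σ * ((i : ℝ) + σ * j) := by
    have e : t / σ * ((i : ℝ) + σ * j) = t / σ * i + t * j := by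
      field_simp
    rw [e]
    have h3 : 1 ≤ t / σ := by
      rw [le_div_iff₀ hσ0]
      linarith
    have : (0 : ℝ) ≤ i := Nat.cast_nonneg _
    nlinarith
  refine h2.trans ((mul_le_mul_of_nonneg_left hle (by positivity)).trans (le_of_eq ?_))
  rw [div_mul_eq_mul_div, div_mul_eq_mul_div, div_eq_div_iff hσ0.ne' hq.ne']
  calc t * (↑d * √σ) * √σ = t * ↑d * (√σ * √σ) := by ring
    _ = t * ↑d * σ := by rw [hqq]

theorem bd_above {σ t : ℝ} (h : Up 1 σ) (ht0 : 0 < t) (hσ : t ≤ σ) : Bd t (Real.sqrt σ) := by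
  obtain ⟨S, h0, h1⟩ := exact_up h
  refine ⟨S, h0, fun c hc d f hf hf0 => exists_vl ht0 ?_⟩
  obtain ⟨i, j, hij, hle⟩ := h1 c hc d f hf hf0
  refine ⟨i, j, hij, ?_⟩
  have : t * (j : ℝ) ≤ σ * j := mul_le_mul_of_nonneg_right hσ (Nat.cast_nonneg _)
  linarith

/-- The reachable square roots. -/
def Rr (r : ℝ) : Prop := 0 < r ∧ Up 1 (r ^ 2)

theorem Rr.one : Rr 1 := ⟨one_pos, by rw [one_pow]; exact Up.base⟩

theorem Rr.step {r : ℝ} (h : Rr r) (ρ : ℕ) (hρ : r ^ 2 ≤ ρ) : Rr (ρ / r) := by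
  have h1 : (0 : ℝ) < ρ := lt_of_lt_of_le (by have := h.1; positivity) hρ
  refine ⟨div_pos h1 h.1, ?_⟩
  rw [div_pow]
  exact Up.step _ ρ h.2 hρ

theorem Rr.step' {r r' : ℝ} (h : Rr r) (ρ : ℕ) (hρ : r ^ 2 ≤ ρ) (e : (ρ : ℝ) = r' * r) :
    Rr r' := by
  have h1 := h.step ρ hρ
  rw [e, mul_div_cancel_right₀ _ h.1.ne'] at h1
  exact h1

theorem Rr.frac {p q : ℕ} (hq : 1 ≤ q) (hp : q ^ 2 ≤ p) : Rr ((p : ℝ) / q) := by
  have hqR : (1 : ℝ) ≤ q := by exact_mod_cast hq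
  have h1 : Rr (q : ℝ) := Rr.one.step' q (by simpa using hqR) (by ring)
  refine h1.step p ?_
  exact_mod_cast hp

theorem bd_between {a b r ε : ℝ} (ha : Rr a) (hb : Rr b) (har : a ≤ r) (hrb : r ≤ b)
    (hε : 0 ≤ ε) (hab : b ≤ (1 + ε) ^ 2 * a) : Bd (r ^ 2) ((1 + ε) * r) := by
  have ha0 := ha.1
  have hr0 : 0 < r := by linarith
  rcases le_or_gt r ((1 + ε) * a) with h | h
  · refine (bd_below ha.2 (by nlinarith)).mono ?_
    rw [Real.sqrt_sq ha0.le, div_le_iff₀ ha0]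
    nlinarith
  · refine (bd_above hb.2 (by positivity) (by nlinarith)).mono ?_
    rw [Real.sqrt_sq hb.1.le]
    nlinarith

theorem bd_uniform {t : ℝ} (ht : 1 ≤ t) :
    Bd t ((1 + 1 / (2 * (⌊Real.sqrt t⌋₊ : ℝ) ^ 2)) * Real.sqrt t) := by
  obtain ⟨r, hr⟩ : ∃ r, r = Real.sqrt t := ⟨_, rfl⟩
  have hrt : r ^ 2 = t := by rw [hr, Real.sq_sqrt (by linarith)]
  rw [← hr]
  have hr1 : 1 ≤ r := by
    rw [hr]
    exact Real.one_le_sqrt.2 ht
  obtain ⟨q, hq⟩ : ∃ q : ℕ, q = ⌊r⌋₊ := ⟨_, rfl⟩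
  have hq1 : 1 ≤ q := by
    rw [hq]
    exact Nat.le_floor (by simpa using hr1)
  have hqr : (q : ℝ) ≤ r := by
    rw [hq]
    exact Nat.floor_le (by linarith)
  have hq0 : (0 : ℝ) < q := by exact_mod_cast hq1
  obtain ⟨p, hp⟩ : ∃ p : ℕ, p = ⌊(q : ℝ) * r⌋₊ := ⟨_, rfl⟩
  have hpq : q ^ 2 ≤ p := by
    rw [hp]
    refine Nat.le_floor ?_
    push_cast
    nlinarith
  have hp1 : (p : ℝ) ≤ q * r := by
    rw [hp]
    exact Nat.floor_le (by positivity)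
  have hp2 : (q : ℝ) * r < p + 1 := by
    rw [hp]
    exact Nat.lt_floor_add_one _
  rw [← hq, ← hrt]
  have hpqR : (q : ℝ) ^ 2 ≤ p := by exact_mod_cast hpq
  refine bd_between (a := (p : ℝ) / q) (b := ((p + 1 : ℕ) : ℝ) / q) (Rr.frac hq1 hpq)
    (Rr.frac hq1 (by omega)) ?_ ?_ (by positivity) ?_
  · rw [div_le_iff₀ hq0]
    linarith
  · rw [le_div_iff₀ hq0]
    push_cast
    linarith
  · rw [← mul_div_assoc, div_le_div_iff_of_pos_right hq0]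
    push_cast
    have h1 : (1 + 1 / (2 * (q : ℝ) ^ 2)) ^ 2 = 1 + 1 / (q : ℝ) ^ 2 + (1 / (2 * (q : ℝ) ^ 2)) ^ 2 := by
      field_simp
      ring
    have h2 : 1 ≤ 1 / (q : ℝ) ^ 2 * p := by
      rw [div_mul_eq_mul_div, one_mul, le_div_iff₀ (by positivity), one_mul]
      exact hpqR
    rw [h1]
    have h3 : 0 ≤ (1 / (2 * (q : ℝ) ^ 2)) ^ 2 * p := by positivity
    nlinarith

end Pool.Agent.W607.Qm
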