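import Pool.Agent.W607.Qv

/-!
Very general germs: the values of quasimonomial valuations at the reachable weights.
-/

namespace Pool.Agent.W607.Qm

open MvPolynomial Pool.Agent.H932R5

/-- The expansion with undetermined coefficients. -/
noncomputable def exG : MvPolynomial (Fin (1 + 1)) ℂ →+* Polynomial (PowerSeries
    (MvPolynomial ℕ ℂ)) :=
  eval₂Hom ((Polynomial.C.comp PowerSeries.C).comp MvPolynomial.C)
    ![Polynomial.C PowerSeries.X, Polynomial.C (PowerSeries.X * PowerSeries.mk fun k => X k) +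
      Polynomial.X]

theorem map_exG (c : ℕ → ℂ) (f : MvPolynomial (Fin (1 + 1)) ℂ) :
    (exG f).map (PowerSeries.map (eval c)) = ex c f := by
  have h : (Polynomial.mapRingHom (PowerSeries.map (eval c))).comp exG = (ex c).toRingHom := by
    refine MvPolynomial.ringHom_ext (fun a => ?_) fun i => ?_
    · show (exG (C a)).map (PowerSeries.map (eval c)) = ex c (C a)
      rw [exG, eval₂Hom_C, ex, aeval_C, Polynomial.algebraMap_apply, RingHom.comp_apply,
        RingHom.comp_apply, Polynomial.map_C, PowerSeries.map_C, eval_C]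
      rfl
    · show (exG (X i)).map (PowerSeries.map (eval c)) = ex c (X i)
      rw [exG, eval₂Hom_X', ex, aeval_X]
      fin_cases i
      · show (Polynomial.C PowerSeries.X).map (PowerSeries.map (eval c)) =
          Polynomial.C PowerSeries.X
        rw [Polynomial.map_C, PowerSeries.map_X]
      · show (Polynomial.C (PowerSeries.X * PowerSeries.mk fun k => X k) +
          Polynomial.X).map (PowerSeries.map (eval c)) =
          Polynomial.C (PowerSeries.X * PowerSeries.mk c) + Polynomial.X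
        rw [Polynomial.map_add, Polynomial.map_C, Polynomial.map_X, map_mul, PowerSeries.map_X]
        congr 4
        ext k
        rw [PowerSeries.coeff_map, PowerSeries.coeff_mk, PowerSeries.coeff_mk, eval_X]
  exact congrArg (fun g : MvPolynomial (Fin (1 + 1)) ℂ →+* Polynomial (PowerSeries ℂ) => g f) h

theorem finite_TT {σ : ℝ} (hσ : 0 < σ) (D : ℕ) : (TT σ D).Finite := by
  refine ((Set.finite_Iic ⌊(D : ℝ) * Real.sqrt σ⌋₊).prod
    (Set.finite_Iic ⌊(D : ℝ) * Real.sqrt σ / σ⌋₊)).subset ?_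
  rintro ⟨i, j⟩ h
  have h : (i : ℝ) + σ * j ≤ D * Real.sqrt σ := h
  refine ⟨Nat.le_floor ?_, Nat.le_floor ?_⟩
  · show (i : ℝ) ≤ D * Real.sqrt σ
    have : 0 ≤ σ * (j : ℝ) := by positivity
    linarith
  · show (j : ℝ) ≤ D * Real.sqrt σ / σ
    rw [le_div_iff₀ hσ]
    have : 0 ≤ (i : ℝ) := by positivity
    linarith

/-- The exponents of degree at most `D`. -/
noncomputable def PP (D : ℕ) : Finset (Fin (1 + 1) →₀ ℕ) :=
  ((Finset.range (D + 1)) ×ˢ (Finset.range (D + 1))).image
    (fun p : ℕ × ℕ => Finsupp.equivFunOnFinite.symm ![p.1, p.2]) |>.filter fun α => α 0 + α 1 ≤ D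

theorem mem_PP {D : ℕ} {α : Fin (1 + 1) →₀ ℕ} : α ∈ PP D ↔ α 0 + α 1 ≤ D := by
  unfold PP
  rw [Finset.mem_filter, and_iff_right_iff_imp]
  intro h
  rw [Finset.mem_image]
  refine ⟨(α 0, α 1), ?_, ?_⟩
  · rw [Finset.mem_product, Finset.mem_range, Finset.mem_range]
    exact ⟨by show α 0 < D + 1; omega, by show α 1 < D + 1; omega⟩
  · ext i
    fin_cases i <;> simp

theorem exists_poly {σ : ℝ} (h : Up 1 σ) (D : ℕ) :
    ∃ S : MvPolynomial ℕ ℂ, S ≠ 0 ∧ ∀ c : ℕ → ℂ, eval c S ≠ 0 →
      ∀ f ∈ Zv (TT σ D) c, (∀ α, coeff α f ≠ 0 → α 0 + α 1 ≤ D) → f = 0 := by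
  classical
  obtain ⟨c0, hc0⟩ := exists_full (K := ℂ) h D
  have hσ : 0 < σ := h.pos one_pos
  have hfin := finite_TT hσ D
  obtain ⟨T, hT⟩ : ∃ T : Finset (ℕ × ℕ), (T : Set (ℕ × ℕ)) = TT σ D := hfin.exists_finset_coe
  -- the generic matrix
  let A : Matrix T (PP D) (MvPolynomial ℕ ℂ) := fun q p =>
    PowerSeries.coeff q.1.1 ((exG (monomial p.1 1)).coeff q.1.2)
  have hA : ∀ (c : ℕ → ℂ) (q : T) (p : PP D), eval c (A q p) =
      PowerSeries.coeff q.1.1 ((ex c (monomial p.1 1)).coeff q.1.2) := by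
    intro c q p
    rw [← map_exG, Polynomial.coeff_map, PowerSeries.coeff_map]
  have hmul : ∀ (c : ℕ → ℂ) (a : PP D → ℂ) (q : T),
      (A.map (eval c)).mulVec a q = PowerSeries.coeff q.1.1
        ((ex c (∑ p, a p • monomial p.1 1)).coeff q.1.2) := by
    intro c a q
    rw [map_sum, Polynomial.finsetSum_coeff, map_sum, Matrix.mulVec, dotProduct]
    refine Finset.sum_congr rfl fun p _ => ?_
    rw [map_smul, Polynomial.coeff_smul, PowerSeries.coeff_smul, ← hA, Matrix.map_apply,
      mul_comm, smul_eq_mul]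
  have hcoeff : ∀ (a : PP D → ℂ) (p : PP D), coeff p.1 (∑ p, a p • monomial p.1 (1 : ℂ)) =
      a p := by
    intro a p
    rw [coeff_sum, Finset.sum_eq_single p]
    · rw [coeff_smul, coeff_monomial, if_pos rfl, smul_eq_mul, mul_one]
    · intro k _ hk
      rw [coeff_smul, coeff_monomial, if_neg (fun h => hk (Subtype.ext h)), smul_zero]
    · intro h
      exact absurd (Finset.mem_univ p) h
  have hsupp : ∀ (a : PP D → ℂ) (α), coeff α (∑ p, a p • monomial p.1 (1 : ℂ)) ≠ 0 →
      α 0 + α 1 ≤ D := by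
    intro a α hα
    rw [coeff_sum] at hα
    obtain ⟨p, _, hp⟩ := Finset.exists_ne_zero_of_sum_ne_zero hα
    rw [coeff_smul, coeff_monomial] at hp
    by_cases hpe : p.1 = α
    · rw [← hpe]
      exact mem_PP.1 p.2
    · rw [if_neg hpe, smul_zero] at hp
      exact absurd rfl hp
  have hinj : Function.Injective (A.map (eval c0)).mulVecLin := by
    rw [← LinearMap.ker_eq_bot, LinearMap.ker_eq_bot']
    intro a ha
    have h1 : ∑ p, a p • monomial p.1 (1 : ℂ) = 0 := by
      refine hc0 _ ?_ (hsupp a)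
      intro i j hij
      rw [← hT] at hij
      have h2 := congrFun ha (⟨(i, j), hij⟩ : T)
      rw [Matrix.mulVecLin_apply, hmul] at h2
      exact h2
    funext p
    rw [← hcoeff a p, h1, coeff_zero, Pi.zero_apply]
  obtain ⟨g, hg⟩ := (A.map (eval c0)).mulVecLin.exists_leftInverse_of_injective
    (LinearMap.ker_eq_bot.2 hinj)
  let L : Matrix (PP D) T ℂ := LinearMap.toMatrix' g
  have hL : L * A.map (eval c0) = 1 := by
    have h1 : LinearMap.toMatrix' (g ∘ₗ (A.map (eval c0)).mulVecLin) = 1 := by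
      rw [hg, LinearMap.toMatrix'_id]
    rw [LinearMap.toMatrix'_comp, ← Matrix.toLin'_apply', LinearMap.toMatrix'_toLin'] at h1
    exact h1
  have hLc : ∀ c : ℕ → ℂ, (L.map (C : ℂ → MvPolynomial ℕ ℂ)).map (eval c) = L := by
    intro c
    ext i j
    simp
  obtain ⟨B, hB⟩ : ∃ B : Matrix (PP D) (PP D) (MvPolynomial ℕ ℂ),
      B = (L.map (C : ℂ → MvPolynomial ℕ ℂ) : Matrix (PP D) T (MvPolynomial ℕ ℂ)) * A := ⟨_, rfl⟩
  have hBc : ∀ c : ℕ → ℂ, eval c B.det = (L * A.map (eval c)).det := by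
    intro c
    rw [RingHom.map_det, RingHom.mapMatrix_apply, hB]
    congr 1
    have h1 := Matrix.map_mul (L := L.map (C : ℂ → MvPolynomial ℕ ℂ)) (M := A) (f := eval c)
    rw [hLc] at h1
    exact h1
  refine ⟨B.det, ?_, ?_⟩
  · intro h0
    have h1 := hBc c0
    rw [h0, map_zero, hL, Matrix.det_one] at h1
    exact zero_ne_one h1
  · intro c hc f hf hM
    rw [hBc] at hc
    have hfe : f = ∑ p : PP D, coeff p.1 f • monomial p.1 (1 : ℂ) := by
      ext α
      by_cases hα : α ∈ PP D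
      · exact (hcoeff (fun p => coeff p.1 f) ⟨α, hα⟩).symm
      · have h3 : coeff α f = 0 := by
          by_contra hne
          exact hα (mem_PP.2 (hM α hne))
        rw [h3]
        by_contra hne
        exact hα (mem_PP.2 (hsupp _ _ (Ne.symm hne)))
    have hv : (A.map (eval c)).mulVec (fun p => coeff p.1 f) = 0 := by
      funext q
      rw [hmul, ← hfe]
      refine hf _ _ ?_
      rw [← hT]
      exact q.2
    have hz : (fun p : PP D => coeff p.1 f) = 0 := by
      refine Matrix.eq_zero_of_mulVec_eq_zero hc ?_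
      rw [← Matrix.mulVec_mulVec, hv, Matrix.mulVec_zero]
    rw [hfe]
    exact Finset.sum_eq_zero fun p _ => by rw [congrFun hz p, Pi.zero_apply, zero_smul]

end Pool.Agent.W607.Qm
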