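import Pool.Agent.H932R5.Chain

/-!
The compression technique of `H932R5`, for an arbitrary family of subspaces of `K[x,y]` which is
stable under the substitutions `y ↦ x ^ ρ + t y`.
-/

namespace Pool.Agent.W607.Qm

open MvPolynomial Pool.Agent.H932R5

variable {K : Type*} [Field K] {E : ℕ} {ι : Type*}

/-- A family of subspaces stable under the substitutions. -/
def Stable (Z : ι → Submodule K (MvPolynomial (Fin (E + 1)) K)) (j : Fin (E + 1)) : Prop :=
  ∀ ρ : ℕ, 0 < ρ → ∀ t : K, t ≠ 0 → ∀ x' : ι, ∃ x : ι, ∀ f ∈ Z x, sub ρ j t f ∈ Z x'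

/-- For some member of the family, the span of the monomials in `M` has `N` elements linearly
independent modulo it. -/
def RkF (Z : ι → Submodule K (MvPolynomial (Fin (E + 1)) K)) (M : Set (Fin (E + 1) →₀ ℕ))
    (N : ℕ) : Prop :=
  ∃ x : ι, ∃ v : Fin N → MvPolynomial (Fin (E + 1)) K,
    (∀ i, v i ∈ mspan K M) ∧ ∀ c : Fin N → K, ∑ i, c i • v i ∈ Z x → ∀ i, c i = 0

/-- For some member of the family, it contains no nonzero polynomial supported in `M`. -/
def FullF (Z : ι → Submodule K (MvPolynomial (Fin (E + 1)) K)) (M : Set (Fin (E + 1) →₀ ℕ)) :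
    Prop :=
  ∃ x : ι, ∀ f ∈ Z x, (∀ α, coeff α f ≠ 0 → α ∈ M) → f = 0

theorem li_mk_iff' {V : Type*} [AddCommGroup V] [Module K V] {N : ℕ} (I : Submodule K V)
    (v : Fin N → V) :
    LinearIndependent K (fun i => I.mkQ (v i)) ↔
      ∀ c : Fin N → K, ∑ i, c i • v i ∈ I → ∀ i, c i = 0 := by
  rw [Fintype.linearIndependent_iff]
  refine forall_congr' fun c => ?_
  have : ∑ i, c i • I.mkQ (v i) = I.mkQ (∑ i, c i • v i) := by
    rw [map_sum]
    exact Finset.sum_congr rfl fun i _ => (map_smul _ _ _).symm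
  rw [this, Submodule.mkQ_apply, Submodule.Quotient.mk_eq_zero]

variable {Z : ι → Submodule K (MvPolynomial (Fin (E + 1)) K)}

theorem FullF.mono {M M' : Set (Fin (E + 1) →₀ ℕ)} (h : M ⊆ M')
    (hF : FullF Z M') : FullF Z M := by
  obtain ⟨x, hx⟩ := hF
  exact ⟨x, fun f hf hM => hx f hf fun α hα => h (hM α hα)⟩

theorem RkF.transfer [Infinite K] {M M' : Set (Fin (E + 1) →₀ ℕ)}
    {N : ℕ} (B : ℕ) (ψ : K → MvPolynomial (Fin (E + 1)) K →ₐ[K] MvPolynomial (Fin (E + 1)) K)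
    (hI : ∀ t : K, t ≠ 0 → ∀ x' : ι, ∃ x : ι, ∀ f ∈ Z x, ψ t f ∈ Z x')
    (hM : ∀ p ∈ M', ∃ u : ℕ → MvPolynomial (Fin (E + 1)) K, u 0 = monomial p (1 : K) ∧
      ∀ t : K, t ≠ 0 → ∑ k ∈ Finset.range (B + 1), t ^ k • u k ∈
        (mspan K M).map (ψ t).toLinearMap)
    (hR : RkF Z M' N) : RkF Z M N := by
  classical
  obtain ⟨x', v, hv, hli⟩ := hR
  have hgood : ∀ f ∈ mspan K M', ∃ u : ℕ → MvPolynomial (Fin (E + 1)) K, u 0 = f ∧
      ∀ t : K, t ≠ 0 → ∑ k ∈ Finset.range (B + 1), t ^ k • u k ∈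
        (mspan K M).map (ψ t).toLinearMap := by
    intro f hf
    refine Submodule.span_induction ?_ ?_ ?_ ?_ hf
    · rintro _ ⟨p, hp, rfl⟩
      exact hM p hp
    · exact ⟨fun _ => 0, rfl, fun t _ => by simp⟩
    · rintro a b _ _ ⟨wa, ha0, ha⟩ ⟨wb, hb0, hb⟩
      refine ⟨fun k => wa k + wb k, by simp only [ha0, hb0], fun t ht => ?_⟩
      have := Submodule.add_mem _ (ha t ht) (hb t ht)
      rw [← Finset.sum_add_distrib] at this
      simpa only [smul_add] using this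
    · rintro c a _ ⟨wa, ha0, ha⟩
      refine ⟨fun k => c • wa k, by simp only [ha0], fun t ht => ?_⟩
      have := Submodule.smul_mem _ c (ha t ht)
      rw [Finset.smul_sum] at this
      simpa only [smul_comm c] using this
  choose u hu0 hu using fun i => hgood (v i) (hv i)
  obtain ⟨W, hW⟩ : ∃ W : Fin N → ℕ → MvPolynomial (Fin (E + 1)) K ⧸ Z x',
      ∀ i k, W i k = (Z x').mkQ (u i k) := ⟨_, fun _ _ => rfl⟩
  have h0 : LinearIndependent K (fun j => W j 0) := by
    simp only [hW, hu0]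
    exact (li_mk_iff' _ _).2 hli
  obtain ⟨t, ht, hli'⟩ := H932R2.exists_ne_zero_li B W h0
  have hli'' : ∀ c : Fin N → K, ∑ i, c i • (∑ k ∈ Finset.range (B + 1), t ^ k • u i k) ∈
      Z x' → ∀ i, c i = 0 := by
    intro c hc
    refine Fintype.linearIndependent_iff.1 hli' c ?_
    have h1 : (Z x').mkQ
        (∑ i, c i • (∑ k ∈ Finset.range (B + 1), t ^ k • u i k)) = 0 := by
      rw [Submodule.mkQ_apply, Submodule.Quotient.mk_eq_zero]
      exact hc
    rw [← h1, map_sum]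
    refine Finset.sum_congr rfl fun i _ => ?_
    rw [map_smul, map_sum]
    congr 1
    exact Finset.sum_congr rfl fun k _ => by rw [hW, map_smul]
  choose u' hu' hu'' using fun i => Submodule.mem_map.1 (hu i t ht)
  obtain ⟨x, hle⟩ := hI t ht x'
  refine ⟨x, u', hu', fun c hc => hli'' c ?_⟩
  have h1 := hle _ hc
  rw [map_sum] at h1
  convert h1 using 2 with i
  rw [map_smul, ← hu'' i]
  rfl

theorem RkF.step [Infinite K] [CharZero K] {M : Set (Fin (E + 1) →₀ ℕ)} {N : ℕ}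
    {ρ : ℕ} (hρ : 0 < ρ) {j : Fin (E + 1)} (hj : j ≠ 0) (hZ : Stable Z j) (B : ℕ)
    (hB : ∀ p ∈ M, p j ≤ B)
    (hcl : ∀ p ∈ M, ρ ≤ p 0 → up p j (p 0 - ρ) (p j + 1) ∈ M)
    (hR : RkF Z {p | tau ρ j p ∈ M} N) : RkF Z M N := by
  classical
  refine RkF.transfer B (sub ρ j) (fun t ht x' => hZ ρ hρ t ht x') (fun p hp => ?_) hR
  have hp : tau ρ j p ∈ M := hp
  obtain ⟨q, hq⟩ : ∃ q, q = p j := ⟨_, rfl⟩
  obtain ⟨c, hc⟩ : ∃ c, c = p 0 + ρ * q := ⟨_, rfl⟩
  have hmem : ∀ k ≤ q, up p j (c - ρ * (p 0 / ρ + k)) (p 0 / ρ + k) ∈ M := by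
    intro k
    induction k with
    | zero =>
      intro _
      have e : up p j (c - ρ * (p 0 / ρ + 0)) (p 0 / ρ + 0) = tau ρ j p := by
        unfold tau
        rw [add_zero, hc, ← hq]
        have := Nat.mod_add_div (p 0) ρ
        congr 1
        omega
      rw [e]
      exact hp
    | succ k ih =>
      intro hk
      have h1 := ih (by omega)
      have e2 : ρ * (p 0 / ρ + k) = ρ * (p 0 / ρ) + ρ * k := by ring
      have e3 : ρ * (p 0 / ρ + (k + 1)) = ρ * (p 0 / ρ) + ρ * k + ρ := by ring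
      have h4 : ρ * (k + 1) ≤ ρ * q := Nat.mul_le_mul_left _ hk
      have e4 : ρ * (k + 1) = ρ * k + ρ := by ring
      have := Nat.mod_add_div (p 0) ρ
      have h2 := hcl _ h1 (by
        rw [up_zero _ hj]
        omega)
      rw [up_zero _ hj, up_self, up_up _ hj] at h2
      have e : c - ρ * (p 0 / ρ + (k + 1)) = c - ρ * (p 0 / ρ + k) - ρ := by omega
      rw [e]
      exact h2
  obtain ⟨e, he⟩ := H932R2.exists_choose_inverse (K := K) B q
    (fun k hk _ => Nat.cast_ne_zero.2 hk.ne') (fun a : Fin (q + 1) => p 0 / ρ + (a : ℕ))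
    (fun a b hab => Fin.ext (by simpa using hab)) (fun a => by
      have := hB _ (hmem a (Nat.lt_succ_iff.1 a.2))
      rwa [up_self] at this)
  have hmemc : ∀ a : Fin (q + 1), ρ * (p 0 / ρ + (a : ℕ)) ≤ c := by
    intro a
    have h1 : ρ * (p 0 / ρ + (a : ℕ)) = ρ * (p 0 / ρ) + ρ * a := by ring
    have h2 : ρ * (a : ℕ) ≤ ρ * q := Nat.mul_le_mul_left _ (Nat.lt_succ_iff.1 a.2)
    have := Nat.mod_add_div (p 0) ρ
    omega
  have hmemB : ∀ a : Fin (q + 1), p 0 / ρ + (a : ℕ) ≤ B := by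
    intro a
    have := hB _ (hmem a (Nat.lt_succ_iff.1 a.2))
    rwa [up_self] at this
  refine ⟨fun k => (∑ a, e a * (((p 0 / ρ + (a : ℕ)).choose (q + k) : ℕ) : K)) •
    monomial (up p j (c - ρ * (q + k)) (q + k)) 1, ?_, fun t ht => ?_⟩
  · beta_reduce
    simp only [add_zero]
    rw [he q le_rfl, if_pos rfl, one_smul]
    have e : up p j (c - ρ * q) q = p := up_eta _ hj (by omega) hq
    rw [e]
  · have key : sub ρ j t (∑ a : Fin (q + 1), e a •
          monomial (up p j (c - ρ * (p 0 / ρ + (a : ℕ))) (p 0 / ρ + (a : ℕ))) 1) =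
        t ^ q • ∑ k ∈ Finset.range (B + 1), t ^ k •
          ((∑ a, e a * (((p 0 / ρ + (a : ℕ)).choose (q + k) : ℕ) : K)) •
            monomial (up p j (c - ρ * (q + k)) (q + k)) 1) := by
      rw [map_sum]
      have h1 : ∀ a : Fin (q + 1), sub ρ j t (e a •
          monomial (up p j (c - ρ * (p 0 / ρ + (a : ℕ))) (p 0 / ρ + (a : ℕ))) 1) =
          ∑ b ∈ Finset.range (q + (B + 1)),
            (t ^ b * (e a * (((p 0 / ρ + (a : ℕ)).choose b : ℕ) : K))) •
            monomial (up p j (c - ρ * b) b) 1 := by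
        intro a
        rw [map_smul, sub_up ρ p hj t c _ (hmemc a) (q + B) (by have := hmemB a; omega),
          Finset.smul_sum]
        refine Finset.sum_congr rfl fun b _ => ?_
        rw [smul_smul]
        congr 1
        ring
      simp only [h1]
      rw [Finset.sum_comm, Finset.sum_range_add]
      have h2 : ∑ b ∈ Finset.range q, ∑ a : Fin (q + 1),
            (t ^ b * (e a * (((p 0 / ρ + (a : ℕ)).choose b : ℕ) : K))) •
            (monomial (up p j (c - ρ * b) b) (1 : K)) = 0 := by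
        refine Finset.sum_eq_zero fun b hb => ?_
        rw [Finset.mem_range] at hb
        rw [← Finset.sum_smul, ← Finset.mul_sum, he b hb.le, if_neg (by omega), mul_zero,
          zero_smul]
      rw [h2, zero_add, Finset.smul_sum]
      refine Finset.sum_congr rfl fun k _ => ?_
      rw [← Finset.sum_smul, ← Finset.mul_sum, smul_smul, smul_smul]
      congr 1
      ring
    have key' : ∑ k ∈ Finset.range (B + 1), t ^ k •
          ((∑ a, e a * (((p 0 / ρ + (a : ℕ)).choose (q + k) : ℕ) : K)) •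
            monomial (up p j (c - ρ * (q + k)) (q + k)) 1) =
        (t ^ q)⁻¹ • sub ρ j t (∑ a : Fin (q + 1), e a •
          monomial (up p j (c - ρ * (p 0 / ρ + (a : ℕ))) (p 0 / ρ + (a : ℕ))) 1) := by
      rw [key, smul_smul, inv_mul_cancel₀ (pow_ne_zero _ ht), one_smul]
    rw [key', ← map_smul]
    refine Submodule.mem_map_of_mem (Submodule.smul_mem _ _ (Submodule.sum_mem _ fun a _ =>
      Submodule.smul_mem _ _ (Submodule.subset_span ⟨_, hmem a (Nat.lt_succ_iff.1 a.2), rfl⟩)))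

theorem FullF.rk {M : Finset (Fin (E + 1) →₀ ℕ)}
    (h : FullF Z (↑M : Set (Fin (E + 1) →₀ ℕ))) :
    RkF Z (↑M : Set (Fin (E + 1) →₀ ℕ)) M.card := by
  classical
  obtain ⟨x, hx⟩ := h
  refine ⟨x, fun i => monomial (enumM M i) 1, fun i => Submodule.subset_span
    ⟨_, enumM_mem M i, rfl⟩, fun c hc i => ?_⟩
  have h1 := hx _ hc (fun α hα => ?_)
  · have h2 := coeff_sum_enum M c i
    rw [h1, coeff_zero] at h2
    exact h2.symm
  · have h3 : ∑ i, c i • (monomial (enumM M i) (1 : K)) ∈ mspan K (↑M : Set (Fin (E + 1) →₀ ℕ)) :=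
      Submodule.sum_mem _ fun i _ => Submodule.smul_mem _ _ (Submodule.subset_span
        ⟨_, enumM_mem M i, rfl⟩)
    exact mem_mspan.1 h3 α hα

theorem RkF.full {M : Finset (Fin (E + 1) →₀ ℕ)}
    (hR : RkF Z (↑M : Set (Fin (E + 1) →₀ ℕ)) M.card) :
    FullF Z (↑M : Set (Fin (E + 1) →₀ ℕ)) := by
  classical
  obtain ⟨x, v, hv, hli⟩ := hR
  refine ⟨x, fun f hf hM => ?_⟩
  have h0 : ∀ c : Fin M.card → K, ∑ i, c i • (monomial (enumM M i) (1 : K)) ∈ Z x →
      ∀ i, c i = 0 := by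
    rw [← li_mk_iff'] at hli ⊢
    refine li_of_li_in_span _ _ hli fun i => ?_
    have h1 := hv i
    rw [mspan_eq_range] at h1
    have h2 := Submodule.mem_map_of_mem (f := (Z x).mkQ) h1
    rw [Submodule.map_span, ← Set.range_comp] at h2
    exact h2
  have h1 : f ∈ mspan K (↑M : Set (Fin (E + 1) →₀ ℕ)) := mem_mspan.2 hM
  rw [mspan_eq_range, Submodule.mem_span_range_iff_exists_fun] at h1
  obtain ⟨c, rfl⟩ := h1
  have h2 := h0 c hf
  exact Finset.sum_eq_zero fun i _ => by rw [h2 i, zero_smul]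

theorem FullF.step [Infinite K] [CharZero K] {M : Set (Fin (E + 1) →₀ ℕ)}
    (hfin : M.Finite) {ρ : ℕ} (hρ : 0 < ρ) {j : Fin (E + 1)} (hj : j ≠ 0) (hZ : Stable Z j)
    (hcl : ∀ p ∈ M, ρ ≤ p 0 → up p j (p 0 - ρ) (p j + 1) ∈ M)
    (hR : FullF Z {p | tau ρ j p ∈ M}) : FullF Z M := by
  classical
  obtain ⟨M, rfl⟩ := hfin.exists_finset_coe
  have h1 : ({p | tau ρ j p ∈ (↑M : Set (Fin (E + 1) →₀ ℕ))} : Set (Fin (E + 1) →₀ ℕ)) =
      (↑(M.image (tau ρ j)) : Set (Fin (E + 1) →₀ ℕ)) := by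
    ext p
    rw [Finset.coe_image]
    constructor
    · intro hp
      exact ⟨_, hp, tau_tau hρ hj p⟩
    · rintro ⟨q, hq, rfl⟩
      show tau ρ j (tau ρ j q) ∈ (↑M : Set (Fin (E + 1) →₀ ℕ))
      rw [tau_tau hρ hj]
      exact hq
  have h2 : (M.image (tau ρ j)).card = M.card := by
    refine Finset.card_image_of_injective _ fun a b hab => ?_
    rw [← tau_tau hρ hj a, hab, tau_tau hρ hj]
  rw [h1] at hR
  have h3 := hR.rk
  rw [h2] at h3
  refine RkF.full (RkF.step hρ hj hZ (M.sup fun p => p j)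
    (fun p hp => Finset.le_sup (f := fun p => p j) hp) hcl ?_)
  rw [h1]
  exact h3

/-- One step. -/
theorem FullF.sx [Infinite K] [CharZero K] {a : Fin (E + 1) → ℝ}
    (ha : ∀ i, 0 < a i) {c : ℝ} {j : Fin (E + 1)} (hj : j ≠ 0) (hZ : Stable Z j) {ρ : ℕ}
    (hρ : 0 < ρ) (h : a j ≤ ρ * a 0)
    (hF : FullF Z (Sx (nw a j (a j / ρ) (ρ * a 0)) c)) : FullF Z (Sx a c) :=
  FullF.step (finite_Sx ha c) hρ hj hZ (Sx_closed hj h) (hF.mono (Sx_upper hj hρ h))

/-- A chain of steps. -/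
theorem FullF.up [Infinite K] [CharZero K] {a : Fin (E + 1) → ℝ}
    (ha : ∀ i, 0 < a i) {c : ℝ} {j : Fin (E + 1)} (hj : j ≠ 0) (hZ : Stable Z j) {b : ℝ}
    (hb : 0 < b) {s0 σ : ℝ} (hs : 0 < s0) (h : Up s0 σ)
    (hF : FullF Z (Sx (nw a j (b / Real.sqrt σ) (b * Real.sqrt σ)) c)) :
    FullF Z (Sx (nw a j (b / Real.sqrt s0) (b * Real.sqrt s0)) c) := by
  induction h with
  | base => exact hF
  | step σ ρ h1 h2 ih =>
    refine ih ?_
    have hσ := h1.pos hs
    have hρ : (0 : ℝ) < ρ := lt_of_lt_of_le hσ h2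
    have hρ' : 0 < ρ := by exact_mod_cast hρ
    have hq : 0 < Real.sqrt σ := Real.sqrt_pos.2 hσ
    have hqq : Real.sqrt σ * Real.sqrt σ = σ := Real.mul_self_sqrt hσ.le
    refine FullF.sx (nw_pos ha j (by positivity) (by positivity)) hj hZ hρ' ?_ ?_
    · rw [nw_self, nw_zero _ hj]
      have e : (ρ : ℝ) * (b / Real.sqrt σ) = (b * ρ) / Real.sqrt σ := by ring
      rw [e, le_div_iff₀ hq, mul_assoc, hqq]
      exact mul_le_mul_of_nonneg_left h2 hb.le
    · rw [nw_nw _ hj, nw_self, nw_zero _ hj]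
      rw [sqrt_step hσ hρ] at hF
      have e1 : b / (ρ / Real.sqrt σ) = b * Real.sqrt σ / ρ := by
        field_simp
      have e2 : b * (ρ / Real.sqrt σ) = ρ * (b / Real.sqrt σ) := by ring
      rw [e1, e2] at hF
      exact hF

end Pool.Agent.W607.Qm
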