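import Pool.Agent.W607.Qm

/-!
Quasimonomial valuations of the plane with a smooth branch: the values at the reachable weights.
-/

namespace Pool.Agent.W607.Qm

open MvPolynomial Pool.Agent.H932R5

section Field

variable {K : Type*} [Field K]

/-- The expansion `f(x, x c(x) + Y)`. -/
noncomputable def ex (c : ℕ → K) :
    MvPolynomial (Fin (1 + 1)) K →ₐ[K] Polynomial (PowerSeries K) :=
  aeval ![Polynomial.C PowerSeries.X, Polynomial.C (PowerSeries.X * PowerSeries.mk c) +
    Polynomial.X]

/-- The polynomials whose expansion has no term with exponents in `T`. -/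
noncomputable def Zv (T : Set (ℕ × ℕ)) (c : ℕ → K) :
    Submodule K (MvPolynomial (Fin (1 + 1)) K) where
  carrier := {f | ∀ i j : ℕ, (i, j) ∈ T → PowerSeries.coeff i ((ex c f).coeff j) = 0}
  zero_mem' := by
    intro i j _
    simp
  add_mem' := by
    intro a b ha hb i j h
    rw [map_add, Polynomial.coeff_add, map_add, ha i j h, hb i j h, add_zero]
  smul_mem' := by
    intro r a ha i j h
    rw [map_smul, Polynomial.coeff_smul, PowerSeries.coeff_smul, ha i j h, smul_zero]

theorem mem_Zv {T : Set (ℕ × ℕ)} {c : ℕ → K} {f : MvPolynomial (Fin (1 + 1)) K} :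
    f ∈ Zv T c ↔ ∀ i j : ℕ, (i, j) ∈ T → PowerSeries.coeff i ((ex c f).coeff j) = 0 := Iff.rfl

theorem mk_shift (ρ : ℕ) (hρ : 0 < ρ) (s : K) (c' : ℕ → K) :
    (PowerSeries.X * PowerSeries.mk (fun k => s * c' k + if k = ρ - 1 then 1 else 0) :
      PowerSeries K) = PowerSeries.X ^ ρ + PowerSeries.C s * (PowerSeries.X * PowerSeries.mk c') := by
  obtain ⟨m, rfl⟩ : ∃ m, ρ = m + 1 := ⟨ρ - 1, by omega⟩
  have h1 : (PowerSeries.mk (fun k => s * c' k + if k = m + 1 - 1 then 1 else 0) : PowerSeries K) =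
      PowerSeries.C s * PowerSeries.mk c' + PowerSeries.X ^ m := by
    ext k
    rw [PowerSeries.coeff_mk, map_add, PowerSeries.coeff_C_mul, PowerSeries.coeff_mk,
      PowerSeries.coeff_X_pow, Nat.add_sub_cancel]
  rw [h1]
  ring

theorem ex_sub (ρ : ℕ) (hρ : 0 < ρ) (s : K) (c' : ℕ → K) (f : MvPolynomial (Fin (1 + 1)) K) :
    ex c' (sub ρ 1 s f) =
      (ex (fun k => s * c' k + if k = ρ - 1 then 1 else 0) f).comp
        (Polynomial.C (PowerSeries.C s) * Polynomial.X) := by
  have h : ((ex c').comp (sub ρ 1 s)).toRingHom =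
      (Polynomial.compRingHom (Polynomial.C (PowerSeries.C s) * Polynomial.X)).comp
        (ex (fun k => s * c' k + if k = ρ - 1 then 1 else 0)).toRingHom := by
    refine MvPolynomial.ringHom_ext (fun a => ?_) fun i => ?_
    · show ex c' (sub ρ 1 s (C a)) = (ex (fun k => s * c' k + if k = ρ - 1 then 1 else 0) (C a)).comp
        (Polynomial.C (PowerSeries.C s) * Polynomial.X)
      rw [sub_C, ex, ex, aeval_C, aeval_C, Polynomial.algebraMap_apply, Polynomial.C_comp]
    · show ex c' (sub ρ 1 s (X i)) = (ex (fun k => s * c' k + if k = ρ - 1 then 1 else 0) (X i)).comp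
        (Polynomial.C (PowerSeries.C s) * Polynomial.X)
      fin_cases i
      · show ex c' (sub ρ 1 s (X 0)) = (ex (fun k => s * c' k + if k = ρ - 1 then 1 else 0)
          (X 0)).comp (Polynomial.C (PowerSeries.C s) * Polynomial.X)
        rw [sub_X_ne ρ s (by decide)]
        simp [ex]
      · show ex c' (sub ρ 1 s (X 1)) = (ex (fun k => s * c' k + if k = ρ - 1 then 1 else 0)
          (X 1)).comp (Polynomial.C (PowerSeries.C s) * Polynomial.X)
        rw [sub_X_self]
        have h0 : ex c' (X 0 : MvPolynomial (Fin (1 + 1)) K) = Polynomial.C PowerSeries.X := by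
          simp [ex]
        have h1 : ∀ c : ℕ → K, ex c (X 1 : MvPolynomial (Fin (1 + 1)) K) =
            Polynomial.C (PowerSeries.X * PowerSeries.mk c) + Polynomial.X := by
          intro c
          simp [ex]
        have h2 : ex c' (C s : MvPolynomial (Fin (1 + 1)) K) =
            Polynomial.C (PowerSeries.C s) := by
          rw [ex, aeval_C]
          rfl
        rw [map_add, map_pow, map_mul, h0, h1, h1, h2, mk_shift ρ hρ, Polynomial.add_comp,
          Polynomial.C_comp, Polynomial.X_comp]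
        simp only [Polynomial.C_add, Polynomial.C_mul, Polynomial.C_pow]
        ring
  exact congrArg (fun g : MvPolynomial (Fin (1 + 1)) K →+* Polynomial (PowerSeries K) => g f) h

theorem stable_Zv (T : Set (ℕ × ℕ)) : Stable (K := K) (Zv T) 1 := by
  intro ρ hρ s hs c'
  refine ⟨fun k => s * c' k + if k = ρ - 1 then 1 else 0, fun f hf => ?_⟩
  intro i j h
  rw [ex_sub ρ hρ, Polynomial.comp_C_mul_X_coeff, ← map_pow, PowerSeries.coeff_mul_C, hf i j h,
    zero_mul]

theorem coeff_ex_zero (f : MvPolynomial (Fin (1 + 1)) K) (α : Fin (1 + 1) →₀ ℕ) :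
    PowerSeries.coeff (α 0) ((ex (fun _ => 0) f).coeff (α 1)) = coeff α f := by
  classical
  have hmk : (PowerSeries.mk (fun _ => 0) : PowerSeries K) = 0 := by
    ext k
    simp
  induction f using MvPolynomial.induction_on' with
  | monomial β a =>
    have h1 : ex (fun _ => 0) (monomial β a) =
        Polynomial.C (PowerSeries.C a * PowerSeries.X ^ β 0) * Polynomial.X ^ β 1 := by
      rw [ex, aeval_monomial, Finsupp.prod_fintype _ _ (fun i => pow_zero _), Fin.prod_univ_two,
        hmk, Polynomial.algebraMap_apply]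
      simp only [Matrix.cons_val_zero, Matrix.cons_val_one, mul_zero, map_zero, zero_add]
      rw [Polynomial.C_mul, Polynomial.C_pow, mul_assoc]
      rfl
    rw [h1, Polynomial.coeff_C_mul_X_pow, coeff_monomial]
    by_cases h : β = α
    · subst h
      rw [if_pos rfl, if_pos rfl, PowerSeries.coeff_C_mul, PowerSeries.coeff_X_pow, if_pos rfl,
        mul_one]
    · rw [if_neg h]
      by_cases h2 : α 1 = β 1
      · rw [if_pos h2, PowerSeries.coeff_C_mul, PowerSeries.coeff_X_pow, if_neg, mul_zero]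
        intro h3
        refine h (Finsupp.ext fun i => ?_)
        fin_cases i
        · exact h3.symm
        · exact h2.symm
      · rw [if_neg h2, map_zero]
  | add p q hp hq =>
    rw [map_add, Polynomial.coeff_add, map_add, hp, hq, coeff_add]

/-- The exponents of value at most `D √σ`. -/
def TT (σ : ℝ) (D : ℕ) : Set (ℕ × ℕ) := {p | (p.1 : ℝ) + σ * p.2 ≤ D * Real.sqrt σ}

theorem exists_full [CharZero K] {σ : ℝ} (h : Up 1 σ) (D : ℕ) :
    ∃ c : ℕ → K, ∀ f ∈ Zv (TT σ D) c, (∀ α, coeff α f ≠ 0 → α 0 + α 1 ≤ D) → f = 0 := by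
  have hσ : 0 < σ := h.pos one_pos
  have hq : 0 < Real.sqrt σ := Real.sqrt_pos.2 hσ
  have hqq : Real.sqrt σ * Real.sqrt σ = σ := Real.mul_self_sqrt hσ.le
  have hF : FullF (Zv (K := K) (TT σ D)) (Sx (nw (fun _ => 1) (1 : Fin (1 + 1))
      (Real.sqrt σ / Real.sqrt 1) (Real.sqrt σ * Real.sqrt 1)) (D * Real.sqrt σ)) := by
    refine FullF.up (fun _ => one_pos) (by decide) (stable_Zv _) hq one_pos h ?_
    refine ⟨fun _ => 0, fun f hf hM => ?_⟩
    ext α
    rw [coeff_zero]
    by_contra hne
    refine hne ?_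
    rw [← coeff_ex_zero]
    refine hf _ _ ?_
    have h1 := hM α hne
    rw [mem_Sx, Fin.sum_univ_two, nw_zero _ (by decide), nw_self, div_self hq.ne', hqq,
      one_mul] at h1
    exact h1
  obtain ⟨c, hc⟩ := hF
  refine ⟨c, fun f hf hM => hc f hf fun α hα => ?_⟩
  rw [mem_Sx, Fin.sum_univ_two, nw_zero _ (by decide), nw_self, Real.sqrt_one, div_one, mul_one]
  have h1 : ((α 0 : ℝ)) + α 1 ≤ D := by exact_mod_cast hM α hα
  nlinarith

end Field

end Pool.Agent.W607.Qm
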